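import Pool.Agent.Helper104.CU.Bundle

set_option autoImplicit false

open Polynomial Pool.Agent.W432.PC Pool.Agent.Helper104.CU

/-!
# Flat bundles on curves: an explicit density of the primes with nonzero `p`-curvature

We consider flat bundles on curves of any genus over finitely generated fields of characteristic zero
whose direct image under a function `x` contains a Fuchsian system of rank `r ≥ 2` on the line: for
example the pull backs of the systems under a map `C → ℙ¹` (bundles without poles, if the
ramification indices are multiples of the denominators of the exponents) and the isotypic parts of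
equivariant bundles on a Galois covering of the line.

If the `p`-curvatures of the bundle vanish at almost all closed points (the hypothesis (H)) then the
exponents of the system are rational. Let them be rational, let `S` be a set of singular points such
that the exponents at every other point agree modulo the integers (for example apparent singular
points), `s` the number of its elements, `K = 4 r ^ 6 s ^ 3` and `Q = 8 (K + 1) ^ (r s)`. Then either
there is a relation between the exponents with coefficients at most `2 K + 1` and a denominator `D`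
which is squarefree with `φ(D) < Q`, or the `p`-curvatures of the bundle are nonzero for at least a
proportion `1 / Q` of the residue classes of the primes `p` modulo the common denominator of the
exponents. So the hypothesis (H) holds at most on an explicit finite set of proper torsion cosets of
exponents, whatever the accessory parameters, the curve and the bundle are.
-/

namespace Pool.Agent.Results.MP_0707f5_ag.ExplicitDensityOnCurves

universe u v w

/-- Let `B = (E, ∇)` be a flat bundle on a part of a curve, spread out over the domain `R` of finite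
type over `ℤ`, of characteristic zero, whose direct image on the line contains the Fuchsian system
`d/dx - ∑ j, A j / (x - α j)` of rank `r ≥ 2`, where the differences of the `α j` are units of `R`.

(1) If the `p`-curvatures of `B` vanish on a dense open subset of `Spec R`, then the exponents of the
system (the eigenvalues of the `A j` at `α j` and of `- ∑ A j` at infinity) are rational.

(2) Let the exponents be the rational numbers `lam j l` (`j = n` is the point at infinity), with the
common denominator `N`, let `S` be a nonempty set of singular points such that at every other point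
the exponents agree modulo the integers, let `s` be the number of its elements and let
`K = 4 r ^ 6 s ^ 3` and `Q = 8 (K + 1) ^ (r s)`. Then one of the following holds:

* there are integers `h i l` with the same sum `ε` over `l` for all `i`, which is zero or one, such
  that `∑ l, |h i l| ≤ 2 K + 1` for all `i` and such that the denominator `D` of
  `∑ i, ∑ l, h i l * lam i l` is squarefree with `φ(D) < Q`, and not one if `ε = 0`; if all prime
  factors of `N` are larger than `Q`, then `ε = 1` and `D = 1`, i.e. `∑ i, ∑ l, h i l * lam i l` is an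
  integer;
* there are a set `W` of at least `φ(N) / Q` residue classes modulo `N`, prime to `N`, and a nonzero
  `g ∈ R` such that the `p`-curvature of `B` is nonzero at every closed point of `Spec R[1/g]` whose
  residue characteristic is a large prime in one of these classes; in particular the `p`-curvatures
  do not vanish on a dense open subset of `Spec R`. -/
theorem result {R : Type u} [CommRing R] [IsDomain R] [CharZero R] [Algebra.FiniteType ℤ R]
    {F : Type v} [Field F] [Algebra R F] {V : Type w} [AddCommGroup V] [Module F V]
    (B : FlatBundle R F V) {n r : ℕ} (hn : 0 < n) (hr : 2 ≤ r) (α : Fin n → R)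
    (hα : ∀ i j, i ≠ j → IsUnit (α i - α j)) (A : Fin n → Matrix (Fin r) (Fin r) R)
    (hB : B.Contains α A) :
    (B.CondH → ∃ lam : Fin (n + 1) → Fin r → ℚ,
      (∀ j : Fin n, HasExponents (A j) (lam j.castSucc)) ∧
      HasExponents (∑ j, A j) (fun l => -lam (Fin.last n) l)) ∧
    ∀ lam : Fin (n + 1) → Fin r → ℚ, (∀ j : Fin n, HasExponents (A j) (lam j.castSucc)) →
      HasExponents (∑ j, A j) (fun l => -lam (Fin.last n) l) →
      ∀ N : ℕ, 0 < N → (∀ i l, ∃ z : ℤ, (N : ℚ) * lam i l = z) →
      ∀ S : Finset (Fin (n + 1)), S.Nonempty →
      (∀ i ∉ S, ∀ l l', ∃ z : ℤ, lam i l - lam i l' = z) →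
      ∀ K Q : ℕ, K = 4 * r ^ 6 * S.card ^ 3 → Q = 8 * (K + 1) ^ (r * S.card) →
      (∃ (ε : ℤ) (h : Fin (n + 1) → Fin r → ℤ) (D : ℕ), (ε = 0 ∨ ε = 1) ∧
        (∀ i, ∑ l, h i l = ε) ∧ (∀ i, ∑ l, |h i l| ≤ 2 * K + 1) ∧
        D = (∑ i, ∑ l, (h i l : ℚ) * lam i l).den ∧ Squarefree D ∧ D.totient < Q ∧
        (ε = 0 → D ≠ 1) ∧ ((∀ p : ℕ, p.Prime → p ∣ N → Q < p) → ε = 1 ∧ D = 1)) ∨
      ((∃ (W : Finset (ZMod N)ˣ) (P₀ : ℕ) (g : R), N.totient ≤ Q * W.card ∧ g ≠ 0 ∧
        ∀ p : ℕ, p.Prime → P₀ < p → (∃ v ∈ W, ((p : ℕ) : ZMod N) = ((v : (ZMod N)ˣ) : ZMod N)) →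
          ∀ (𝔪 : Ideal R) [𝔪.IsMaximal], (p : R) ∈ 𝔪 → g ∉ 𝔪 → ¬ B.VanishesAt p 𝔪) ∧
        ¬ B.CondH) := by
  refine ⟨fun h => rational_of_condII hn hα (hB.condII h), ?_⟩
  intro lam hlam hinf N hN hNlam S hS0 hS K Q hK hQ
  have hQ0 : 0 < Q := by rw [hQ]; positivity
  have hQR : (0 : ℝ) < Q := by exact_mod_cast hQ0
  rcases Pool.Agent.Helper104.ER.systems hr α hα A lam hlam hinf N hN hNlam S hS0 hS K Q hK hQ with
    ⟨ε, h, h1, h2, h3, h4, h5, h6, h7⟩ | ⟨⟨W, P₀, h1, h2⟩, h3⟩
  · exact Or.inl ⟨ε, h, _, h1, h2, h3, rfl, h4, h5, h6, h7⟩
  · right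
    obtain ⟨g, hg, h4⟩ := hB.pcurv
    refine ⟨⟨W, P₀, g, ?_, hg, fun p hp hpP hpv 𝔪 h𝔪 hpm hgm h5 => ?_⟩, fun h => h3 (hB.condII h)⟩
    · rw [one_div, inv_mul_le_iff₀ hQR] at h1
      exact_mod_cast h1
    · exact h2 p hp hpP hpv 𝔪 hpm (fun h => h𝔪.ne_top ((Ideal.eq_top_iff_one _).2 h))
        (h4 𝔪 hgm p hp hpm h5)

end Pool.Agent.Results.MP_0707f5_ag.ExplicitDensityOnCurves
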