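import Pool.Agent.Helper104.CU.RankTwo
import Pool.Agent.Helper104.PCD.OnePoint

set_option autoImplicit false

open Polynomial Pool.Agent.W432.PC Pool.Agent.Helper104.PCD Pool.Agent.Helper104.CU

/-!
# Flat bundles on curves: local orders with coprime denominators

We consider flat bundles on curves of any genus over finitely generated fields of characteristic zero
whose direct image under a function `x` contains a Fuchsian system of any rank `r` on the line, with
any number of singular points and arbitrary accessory parameters. If the denominators of the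
exponents have a part `N₀` which occurs at one point only, and the prime factors of the remaining
part exceed an explicit bound, then the `p`-curvatures of the bundle are nonzero for all large primes
in a residue class; so the hypothesis (H) fails.

Proof.  If the `p`-curvatures of the system vanish at closed points of arbitrarily large residue
characteristic `p` with `a p = -1` modulo `N`, then by `Pool.Agent.W432.PC.main` for all integral lifts
`Z i l` of the residues modulo `N` of `a N lam i l` (at all points `i`, infinity included), with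
`x i ≤ Z i l` and `∑ i, x i ≥ 1`, the sum of all the `Z i l` is at least `r N`.  The unit `a` is chosen
by the Chinese remainder theorem: modulo `M k` by Dirichlet's theorem on simultaneous approximation,
so that the multiples of the parts `nu k i l` are near zero and have sum zero; and modulo `N₀` so that
one of the numbers `a mu i₀ l` is `b / m` modulo `ℤ`; then the representatives in
`[b / m, b / m + 1)` of the `a mu i₀ l` or those of the `-a mu i₀ l` have a sum smaller than `r`. At the
closed points outside a hypersurface of `Spec R` the reduction of the bundle contains the reduction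
of the system up to isogeny, hence its `p`-curvature is nonzero, too.
-/

namespace Pool.Agent.Results.MP_0707f5_ag.PrimesAtOnePointOnCurves

/-- Let `B = (E, ∇)` be a flat bundle on a part of a curve, spread out over the domain `R` of finite
type over `ℤ`, of characteristic zero, whose direct image on the line contains the Fuchsian system
`d/dx - ∑ j, A j / (x - α j)` of any rank `r`, where the differences of the `α j` are units of `R`.
Let its exponents be rational: `lam j.castSucc l` at `α j` (the eigenvalues of `A j`) and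
`lam (Fin.last n) l` at infinity (the eigenvalues of `-∑ j, A j`).  Write the exponents, perhaps shifted
by rational numbers `c i` with sum zero, as sums of parts with coprime denominators: the part `mu i l`
has a denominator dividing `N₀`, the part `nu k i l` a denominator dividing `M k`, and `N₀` and the
numbers `M k` are pairwise coprime (`hdec`, `hmu`, `hnu`, `hcop`, `hcop'`).

Suppose that the denominators of the `mu i l` occur at one point only: `mu i l` is an integer for
`i ≠ i₀`, and some `mu i₀ l` is not.  Suppose that the prime factors of the numbers `M k` are not too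
small: they exceed `(q k) ^ d k`, where `d k` is the number of the different non-integral values of
`nu k`, up to sign and modulo `ℤ`, and one of the exponents (`e k`) may be disregarded; and
`∑ k, s k / q k ≤ 1 / 6`, where `s k` is the number of the singular points at which `nu k` is not
integral (`S k`).  The bound `1 / 6` may be replaced by every fraction `b / m ≤ 1 / 2` in lowest terms
whose denominator `m` is the denominator of one of the `mu i₀ l` (so by `1 / 2` if `m = 2`, by
`(m - 1) / (2 m)` if `m` is odd, and by `1 / 4` if `6 ∤ m`).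

Then for every common denominator `N` of the exponents there are a residue class modulo `N` and a
nonzero `g ∈ R` such that for all large primes `p` in the class the `p`-curvature of `B` is nonzero at
every closed point of `Spec R[1/g]` of residue characteristic `p`.  In particular the `p`-curvatures do
not vanish on a dense open subset of `Spec R`.

Example: the pull backs, under maps from curves of any genus, of the systems of rank `r` with three
singular points whose exponents at the points `0`, `1` and infinity have denominators dividing `N₀`,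
`N₁` and `N₂`, which are pairwise coprime, where not all the exponents at `0` are integers, and all the
prime factors of `N₁` and `N₂` exceed `12 ^ (r - 1)`. -/
theorem result {R : Type*} [CommRing R] [IsDomain R] [CharZero R] [Algebra.FiniteType ℤ R]
    {F : Type*} [Field F] [Algebra R F] {V : Type*} [AddCommGroup V] [Module F V]
    (B : FlatBundle R F V) {n r : ℕ} (α : Fin n → R) (hα : ∀ i j, i ≠ j → IsUnit (α i - α j))
    (A : Fin n → Matrix (Fin r) (Fin r) R) (hB : B.Contains α A) (lam : Fin (n + 1) → Fin r → ℚ)
    (hlam : ∀ j : Fin n, HasExponents (A j) (lam j.castSucc))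
    (hinf : HasExponents (∑ j, A j) (fun l => -lam (Fin.last n) l))
    {ι : Type*} [Fintype ι] (c : Fin (n + 1) → ℚ) (mu : Fin (n + 1) → Fin r → ℚ)
    (nu : ι → Fin (n + 1) → Fin r → ℚ) (hc : ∑ i, c i = 0)
    (hdec : ∀ i l, lam i l = c i + mu i l + ∑ k, nu k i l)
    (N₀ : ℕ) (M : ι → ℕ) (hN₀ : 0 < N₀) (hM : ∀ k, 0 < M k)
    (hcop : ∀ k, N₀.Coprime (M k)) (hcop' : ∀ k k', k ≠ k' → (M k).Coprime (M k'))
    (hmu : ∀ i l, ∃ z : ℤ, (N₀ : ℚ) * mu i l = z)
    (hnu : ∀ k i l, ∃ z : ℤ, (M k : ℚ) * nu k i l = z)
    (i₀ : Fin (n + 1)) (hi₀ : ∀ i, i ≠ i₀ → ∀ l, ∃ z : ℤ, mu i l = z)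
    (S : ι → Finset (Fin (n + 1))) (hS : ∀ k i, i ∉ S k → ∀ l, ∃ z : ℤ, nu k i l = z)
    (T : ι → Finset ℚ) (e : ι → Fin (n + 1) × Fin r)
    (hT : ∀ k i l, (i, l) ≠ e k → (∃ z : ℤ, nu k i l = z) ∨
      ∃ θ ∈ T k, (∃ z : ℤ, nu k i l - θ = z) ∨ ∃ z : ℤ, nu k i l + θ = z)
    (q : ι → ℕ) (hq : ∀ k, 0 < q k) (hqM : ∀ k p, p.Prime → p ∣ M k → q k ^ (T k).card < p)
    (hsum : (∑ k, ((S k).card : ℚ) / q k ≤ 1 / 6 ∧ ∃ l, ¬ ∃ z : ℤ, mu i₀ l = z) ∨
      ∃ l, ∃ b : ℕ, 0 < b ∧ b.Coprime (mu i₀ l).den ∧ 2 * b ≤ (mu i₀ l).den ∧
        ∑ k, ((S k).card : ℚ) / q k ≤ b / (mu i₀ l).den) :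
    (∀ N : ℕ, 0 < N → (∀ i l, ∃ z : ℤ, (N : ℚ) * lam i l = z) →
      ∃ a : ℤ, IsCoprime a (N : ℤ) ∧ ∃ (P₀ : ℕ) (g : R), g ≠ 0 ∧
        ∀ p : ℕ, p.Prime → P₀ < p → (N : ℤ) ∣ a * p + 1 →
          ∀ (𝔪 : Ideal R) [𝔪.IsMaximal], (p : R) ∈ 𝔪 → g ∉ 𝔪 → ¬ B.VanishesAt p 𝔪) ∧
    ¬ B.CondH := by
  have H : Parts ι lam c mu nu N₀ M q S T e :=
    ⟨hc, hdec, hN₀, hM, hcop, hcop', hmu, hnu, hS, hT, hq, hqM⟩
  have key : ∀ N : ℕ, 0 < N → (∀ i l, ∃ z : ℤ, (N : ℚ) * lam i l = z) →
      ∃ a : ℤ, IsCoprime a (N : ℤ) ∧ Bad α A N a := fun N hN hNlam =>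
    one_point α hα A lam hlam hinf H i₀ hi₀ hsum N hN hNlam
  refine ⟨fun N hN hNlam => ?_, fun hII => ?_⟩
  · obtain ⟨a, ha, hbad⟩ := key N hN hNlam
    exact ⟨a, ha, class_transfer hB hbad⟩
  obtain ⟨N, hN, hNlam⟩ : ∃ N : ℕ, 0 < N ∧ ∀ i l, ∃ z : ℤ, (N : ℚ) * lam i l = z := by
    refine ⟨∏ i, ∏ l, (lam i l).den, Finset.prod_pos fun i _ => Finset.prod_pos fun l _ =>
      (lam i l).den_pos, fun i l => ?_⟩
    obtain ⟨d, hd⟩ : (lam i l).den ∣ ∏ i, ∏ l, (lam i l).den :=
      (Finset.dvd_prod_of_mem (fun l => (lam i l).den) (Finset.mem_univ l)).trans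
        (Finset.dvd_prod_of_mem (fun i => ∏ l, (lam i l).den) (Finset.mem_univ i))
    refine ⟨d * (lam i l).num, ?_⟩
    rw [hd]
    push_cast
    have := Rat.den_mul_eq_num (lam i l)
    rw [mul_comm ((lam i l).den : ℚ) d, mul_assoc, this]
  obtain ⟨a, ha, P₀, hP⟩ := key N hN hNlam
  exact not_condII_of _ _ N hN a ha
    ⟨1, one_ne_zero, P₀, fun p hp hpP hap 𝔪 _ hpm _ => hP p hp hpP hap 𝔪 hpm⟩ (hB.condII hII)

end Pool.Agent.Results.MP_0707f5_ag.PrimesAtOnePointOnCurves
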