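import Pool.Agent.Helper104.CU.RankTwo
import Pool.Agent.Helper104.PCD.TwoPoints

set_option autoImplicit false

open Polynomial Pool.Agent.W432.PC Pool.Agent.Helper104.PCD Pool.Agent.Helper104.CU

/-!
# Flat bundles on curves: primes dividing the local orders at two points only

We consider flat bundles on curves of any genus over finitely generated fields of characteristic zero
whose direct image under a function `x` contains a Fuchsian system of any rank `r` on the line, with
any number of singular points and arbitrary accessory parameters. If the denominators of the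
exponents have a part `N₀` which occurs at two points only, and the prime factors of the remaining
part exceed an explicit bound, then the `N₀`-parts at the two points are opposite, or the
`p`-curvatures of the bundle are nonzero for all large primes in a residue class, so that the
hypothesis (H) fails.

Proof.  Suppose that no class modulo `N` has the property stated for the system.  By the Chinese
remainder theorem and Dirichlet's theorem on simultaneous approximation the parts `mu i l` satisfy,
for all units `a` modulo `N₀`, the degree inequalities for semistable parabolic bundles up to an error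
`s = ∑ k, s k / q k`.  At the two points `i₀`, `i₁` the inequalities for `a` and `-a` say that at least
as many of the numbers `-a mu i₁ l` are within `s` of `a mu i₀ l₁` modulo `ℤ` as there are `l` with
`mu i₀ l` congruent to `mu i₀ l₁`.  If fewer of the `-mu i₁ l` are congruent to `mu i₀ l₁`, then for
every unit `a` one of the nonintegral numbers `a (mu i₀ l₁ + mu i₁ l)` is within `s` of an integer.  But
for a fixed `l` this happens for less than `φ(N₀) / r` units, by Legendre's sieve. At the closed points
outside a hypersurface of `Spec R` the reduction of the bundle contains the reduction of the system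
up to isogeny, hence its `p`-curvature is nonzero, too.
-/

namespace Pool.Agent.Results.MP_0707f5_ag.PrimesAtTwoPointsOnCurves

/-- Let `B = (E, ∇)` be a flat bundle on a part of a curve, spread out over the domain `R` of finite
type over `ℤ`, of characteristic zero, whose direct image on the line contains the Fuchsian system
`d/dx - ∑ j, A j / (x - α j)` of any rank `r`, where the differences of the `α j` are units of `R`.
Let its exponents be rational: `lam j.castSucc l` at `α j` (the eigenvalues of `A j`) and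
`lam (Fin.last n) l` at infinity (the eigenvalues of `-∑ j, A j`).  Write the exponents, perhaps shifted
by rational numbers `c i` with sum zero, as sums of parts with coprime denominators: the part `mu i l`
has a denominator dividing `N₀`, the part `nu k i l` a denominator dividing `M k`, and `N₀` and the
numbers `M k` are pairwise coprime (`hdec`, `hmu`, `hnu`, `hcop`, `hcop'`).

Suppose that the denominators of the `mu i l` occur at two points only: `mu i l` is an integer for
`i ≠ i₀, i₁`.  Suppose that the prime factors of the numbers `M k` are not too small: they exceed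
`(q k) ^ d k`, where `d k` is the number of the different non-integral values of `nu k`, up to sign
and modulo `ℤ`, and one of the exponents (`e k`) may be disregarded; and the sum `s` of the `s k / q k`,
where `s k` is the number of the singular points at which `nu k` is not integral (`S k`), is at most
`1 / (54 r ^ 2)`, or `N₀` is a prime number and `s` is at most `(N₀ - 1) / (2 r N₀)`, or `s` is at most
`1 / N₀`.

Then one of the following holds.
* The parts `mu` at the two points are opposite: there is a permutation `σ` such that all the sums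
  `mu i₀ l + mu i₁ (σ l)` are integers.
* For every common denominator `N` of the exponents there are a residue class modulo `N` and a nonzero
  `g ∈ R` such that for all large primes `p` in the class the `p`-curvature of `B` is nonzero at every
  closed point of `Spec R[1/g]` of residue characteristic `p`.  In particular the `p`-curvatures do not
  vanish on a dense open subset of `Spec R`.

Example: the pull backs, under maps from curves of any genus, of the systems with three singular
points whose exponents at `0` and infinity have denominators dividing a prime number `ℓ`, those at `1`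
denominators prime to `ℓ`, all the prime factors of which exceed `(4 r) ^ (r - 1)` (here `s = 1 / q`,
`q = 4 r`).  If the `p`-curvatures vanish, the exponents at infinity are opposite to those at `0`, up
to the order and modulo `ℤ`. -/
theorem result {R : Type*} [CommRing R] [IsDomain R] [CharZero R] [Algebra.FiniteType ℤ R]
    {F : Type*} [Field F] [Algebra R F] {V : Type*} [AddCommGroup V] [Module F V]
    (B : FlatBundle R F V) {n r : ℕ} (α : Fin n → R) (hα : ∀ i j, i ≠ j → IsUnit (α i - α j))
    (A : Fin n → Matrix (Fin r) (Fin r) R) (hB : B.Contains α A) (lam : Fin (n + 1) → Fin r → ℚ)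
    (hlam : ∀ j : Fin n, HasExponents (A j) (lam j.castSucc))
    (hinf : HasExponents (∑ j, A j) (fun l => -lam (Fin.last n) l))
    {ι : Type*} [Fintype ι] (c : Fin (n + 1) → ℚ) (mu : Fin (n + 1) → Fin r → ℚ)
    (nu : ι → Fin (n + 1) → Fin r → ℚ) (hc : ∑ i, c i = 0)
    (hdec : ∀ i l, lam i l = c i + mu i l + ∑ k, nu k i l)
    (N₀ : ℕ) (M : ι → ℕ) (hN₀ : 0 < N₀) (hM : ∀ k, 0 < M k)
    (hcop : ∀ k, N₀.Coprime (M k)) (hcop' : ∀ k k', k ≠ k' → (M k).Coprime (M k'))
    (hmu : ∀ i l, ∃ z : ℤ, (N₀ : ℚ) * mu i l = z)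
    (hnu : ∀ k i l, ∃ z : ℤ, (M k : ℚ) * nu k i l = z)
    (i₀ i₁ : Fin (n + 1)) (h01 : i₀ ≠ i₁)
    (hi : ∀ i, i ≠ i₀ → i ≠ i₁ → ∀ l, ∃ z : ℤ, mu i l = z)
    (S : ι → Finset (Fin (n + 1))) (hS : ∀ k i, i ∉ S k → ∀ l, ∃ z : ℤ, nu k i l = z)
    (T : ι → Finset ℚ) (e : ι → Fin (n + 1) × Fin r)
    (hT : ∀ k i l, (i, l) ≠ e k → (∃ z : ℤ, nu k i l = z) ∨
      ∃ θ ∈ T k, (∃ z : ℤ, nu k i l - θ = z) ∨ ∃ z : ℤ, nu k i l + θ = z)
    (q : ι → ℕ) (hq : ∀ k, 0 < q k) (hqM : ∀ k p, p.Prime → p ∣ M k → q k ^ (T k).card < p)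
    (hsum : 54 * (r : ℚ) ^ 2 * ∑ k, ((S k).card : ℚ) / q k ≤ 1 ∨
      (N₀.Prime ∧ 2 * (r : ℚ) * N₀ * ∑ k, ((S k).card : ℚ) / q k ≤ N₀ - 1) ∨
      N₀ * ∑ k, ((S k).card : ℚ) / q k ≤ 1) :
    (∃ σ : Equiv.Perm (Fin r), ∀ l, ∃ z : ℤ, mu i₀ l + mu i₁ (σ l) = z) ∨
    ((∀ N : ℕ, 0 < N → (∀ i l, ∃ z : ℤ, (N : ℚ) * lam i l = z) →
      ∃ a : ℤ, IsCoprime a (N : ℤ) ∧ ∃ (P₀ : ℕ) (g : R), g ≠ 0 ∧
        ∀ p : ℕ, p.Prime → P₀ < p → (N : ℤ) ∣ a * p + 1 →
          ∀ (𝔪 : Ideal R) [𝔪.IsMaximal], (p : R) ∈ 𝔪 → g ∉ 𝔪 → ¬ B.VanishesAt p 𝔪) ∧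
    ¬ B.CondH) := by
  have H : Parts ι lam c mu nu N₀ M q S T e :=
    ⟨hc, hdec, hN₀, hM, hcop, hcop', hmu, hnu, hS, hT, hq, hqM⟩
  have hs0 : 0 ≤ ∑ k, ((S k).card : ℚ) / q k := Finset.sum_nonneg fun k _ => by positivity
  -- the trivial cases
  by_cases htriv : r = 0 ∨ N₀ = 1
  · left
    rcases htriv with rfl | rfl
    · exact ⟨Equiv.refl _, fun l => l.elim0⟩
    · refine ⟨Equiv.refl _, fun l => ?_⟩
      obtain ⟨z, hz⟩ := hmu i₀ l
      obtain ⟨z', hz'⟩ := hmu i₁ l
      refine ⟨z + z', ?_⟩
      push_cast at hz hz' ⊢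
      rw [one_mul] at hz hz'
      rw [hz, Equiv.refl_apply, hz']
  push Not at htriv
  have hr : 0 < r := Nat.pos_of_ne_zero htriv.1
  have hN1 : 1 < N₀ := by omega
  have hrq : (1 : ℚ) ≤ r := by exact_mod_cast hr
  have hNq : (1 : ℚ) < N₀ := by exact_mod_cast hN1
  have hdenN : ∀ l l', (mu i₀ l + mu i₁ l').den ∣ N₀ := by
    intro l l'
    refine den_dvd hN₀ ?_
    obtain ⟨z, hz⟩ := hmu i₀ l
    obtain ⟨z', hz'⟩ := hmu i₁ l'
    exact ⟨z + z', by push_cast; rw [mul_add, hz, hz']⟩
  have hden1 : ∀ l l', (¬ ∃ z : ℤ, mu i₀ l + mu i₁ l' = z) → 1 < (mu i₀ l + mu i₁ l').den := by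
    intro l l' h
    have h1 := (mu i₀ l + mu i₁ l').den_pos
    have h2 : (mu i₀ l + mu i₁ l').den ≠ 1 := fun h' =>
      h ⟨(mu i₀ l + mu i₁ l').num, ((Rat.den_eq_one_iff _).mp h').symm⟩
    omega
  -- the choice of the error
  obtain ⟨t, ht, ht2, hst, hsp⟩ : ∃ t : ℚ, 0 < t ∧ 2 * t ≤ 1 ∧
      ∑ k, ((S k).card : ℚ) / q k ≤ t ∧
      ∀ l l', (¬ ∃ z : ℤ, mu i₀ l + mu i₁ l' = z) →
        r * (near (mu i₀ l + mu i₁ l').den t).card < (mu i₀ l + mu i₁ l').den.totient := by
    rcases hsum with h | ⟨hp, h⟩ | h
    · have hr2 : (1 : ℚ) ≤ (r : ℚ) ^ 2 := by nlinarith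
      refine ⟨1 / (54 * (r : ℚ) ^ 2), by positivity, ?_, ?_, fun l l' hl => ?_⟩
      · rw [← mul_div_assoc, div_le_one (by positivity)]; linarith
      · rw [le_div_iff₀ (by positivity)]; linarith
      · refine sparse_all (hden1 l l' hl) hr (by positivity) (le_of_eq ?_)
        field_simp
    · refine ⟨((N₀ : ℚ) - 1) / (2 * r * N₀), div_pos (by linarith) (by positivity), ?_, ?_,
        fun l l' hl => ?_⟩
      · rw [← mul_div_assoc, div_le_one (by positivity)]
        nlinarith
      · rw [le_div_iff₀ (by positivity)]; linarith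
      · have hd : (mu i₀ l + mu i₁ l').den = N₀ :=
          (hp.eq_one_or_self_of_dvd _ (hdenN l l')).resolve_left (hden1 l l' hl).ne'
        rw [hd]
        refine sparse_prime hp hr (div_pos (by linarith) (by positivity)) (le_of_eq ?_)
        field_simp
    · refine ⟨1 / N₀, by positivity, ?_, ?_, fun l l' hl => ?_⟩
      · rw [← mul_div_assoc, div_le_one (by positivity)]
        have : (2 : ℚ) ≤ N₀ := by exact_mod_cast hN1
        linarith
      · rw [le_div_iff₀ (by positivity)]; linarith
      · refine sparse_small (hden1 l l' hl) (by positivity) ?_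
        rw [mul_one_div, div_le_one (by positivity)]
        exact_mod_cast Nat.le_of_dvd hN₀ (hdenN l l')
  by_cases hσ : ∃ σ : Equiv.Perm (Fin r), ∀ l, ∃ z : ℤ, mu i₀ l + mu i₁ (σ l) = z
  · exact Or.inl hσ
  right
  have key : ∀ N : ℕ, 0 < N → (∀ i l, ∃ z : ℤ, (N : ℚ) * lam i l = z) →
      ∃ a : ℤ, IsCoprime a (N : ℤ) ∧ Bad α A N a := fun N hN hNlam =>
    (two_points α hα A lam hlam hinf H i₀ i₁ h01 hi t ht ht2 hst hsp N hN hNlam).resolve_left hσ
  refine ⟨fun N hN hNlam => ?_, fun hII => ?_⟩
  · obtain ⟨a, ha, hbad⟩ := key N hN hNlam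
    exact ⟨a, ha, class_transfer hB hbad⟩
  obtain ⟨N, hN, hNlam⟩ : ∃ N : ℕ, 0 < N ∧ ∀ i l, ∃ z : ℤ, (N : ℚ) * lam i l = z := by
    refine ⟨∏ i, ∏ l, (lam i l).den, Finset.prod_pos fun i _ => Finset.prod_pos fun l _ =>
      (lam i l).den_pos, fun i l => ?_⟩
    obtain ⟨d, hd⟩ : (lam i l).den ∣ ∏ i, ∏ l, (lam i l).den :=
      (Finset.dvd_prod_of_mem (fun l => (lam i l).den) (Finset.mem_univ l)).trans
        (Finset.dvd_prod_of_mem (fun i => ∏ l, (lam i l).den) (Finset.mem_univ i))
    refine ⟨d * (lam i l).num, ?_⟩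
    rw [hd]
    push_cast
    have := Rat.den_mul_eq_num (lam i l)
    rw [mul_comm ((lam i l).den : ℚ) d, mul_assoc, this]
  obtain ⟨a, ha, P₀, hP⟩ := key N hN hNlam
  exact not_condII_of _ _ N hN a ha
    ⟨1, one_ne_zero, P₀, fun p hp hpP hap 𝔪 _ hpm _ => hP p hp hpP hap 𝔪 hpm⟩ (hB.condII hII)

end Pool.Agent.Results.MP_0707f5_ag.PrimesAtTwoPointsOnCurves
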