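import Pool.Agent.Helper104.CU.RankTwo

set_option autoImplicit false

open Polynomial Pool.Agent.W432.PC Pool.Agent.Y227.RT Pool.Agent.Helper104.CU

/-!
# Flat bundles on curves which contain a system of rank two: short relations of the exponents

We consider flat bundles on curves of any genus over finitely generated fields of characteristic zero
whose direct image under a function `x` contains a Fuchsian system of rank two on the line, with any
number of singular points, arbitrary accessory parameters and rational exponents of common
denominator `N`: for example the pull backs of these systems under maps `C → ℙ¹` of any degree, which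
are bundles without poles if the ramification indices are multiples of the local orders. Let `s ≥ 1` be
the number of the singular points with nonintegral difference `θ x` of the exponents, and
`C = (s + 1) ^ 2 * s ^ (s + 1)`. Then one of the following holds: there is a combination
`∑ j x * θ x`, with integers `j x` of absolute value at most `s`, not all zero, all even or all odd,
whose denominator `D` is squarefree with `φ(D) < C`; or for at least a proportion `1 / C` of the residue
classes of primes modulo `N` the `p`-curvatures of the bundle do not vanish.

Proof. The conjugates `a * θ` by the units `a` modulo `N` are near to an integral vector of the wrong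
parity for at least `φ(N) / C` units, unless there is such a relation: use the test function
`(∑ x, cos (π u x) - s cos (π / s)) * ∏ x, |∑ i, sin (π i / (s + 1)) exp (π i u x)| ^ 2` of
`u = a * θ - μ`. For these units there is no semistable parabolic bundle of degree zero with the
conjugate weights, so the `p`-curvatures of the system do not vanish for `p = -1 / a` modulo `N`
(`StableExponents`). At the closed points outside a hypersurface of `Spec R` the reduction of the
bundle contains the reduction of the system up to isogeny, hence its `p`-curvature is nonzero, too.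
-/

namespace Pool.Agent.Results.MP_0707f5_ag.RankTwoOnCurves

universe u v w

/-- Let `B = (E, ∇)` be a flat bundle on a part of a curve, spread out over the domain `R` of finite
type over `ℤ`, of characteristic zero, whose direct image on the line contains the Fuchsian system
`d/dx - ∑ j, A j / (x - α j)` of rank two, where the differences of the `α j` are units of `R`. Let the
exponents `lam j l` (the eigenvalues of `A j`) and `phi l` (the eigenvalues of `∑ A j`) be rational, with
the common denominator `N`. Let `S` be the set of the singular points (`none` is infinity) at which the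
difference `theta lam phi x` of the exponents is not an integer, let `s ≥ 1` be the number of its
elements and let `C = (s + 1) ^ 2 * s ^ (s + 1)`. Then one of the following holds:

* there are integers `j x`, `x ∈ S`, not all zero, all even or all odd, with `|j x| ≤ s`, such that the
  denominator `D` of `∑ x ∈ S, j x * theta lam phi x` is squarefree and `φ(D) < C`;
* there are a set `W` of at least `φ(N) / C` residue classes modulo `N`, prime to `N`, and a nonzero
  `g ∈ R` such that the `p`-curvature of `B` is nonzero at every closed point of `Spec R[1/g]` whose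
  residue characteristic is a large prime in one of these classes; in particular the `p`-curvatures
  do not vanish on a dense open subset of `Spec R`. -/
theorem result {R : Type u} [CommRing R] [IsDomain R] [CharZero R] [Algebra.FiniteType ℤ R]
    {F : Type v} [Field F] [Algebra R F] {V : Type w} [AddCommGroup V] [Module F V]
    (B : FlatBundle R F V) {n : ℕ} (α : Fin n → R)
    (hα : ∀ i j, i ≠ j → IsUnit (α i - α j)) (A : Fin n → Matrix (Fin 2) (Fin 2) R)
    (hB : B.Contains α A) (lam : Fin n → Fin 2 → ℚ) (phi : Fin 2 → ℚ)
    (hlam : ∀ j, HasExponents (A j) (lam j)) (hphi : HasExponents (∑ j, A j) phi)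
    (N : ℕ) (hN : 0 < N) (hNlam : ∀ j l, ∃ m : ℤ, (N : ℚ) * lam j l = m)
    (hNphi : ∀ l, ∃ m : ℤ, (N : ℚ) * phi l = m)
    (S : Finset (Option (Fin n))) (hS : ∀ x, x ∈ S ↔ ¬ ∃ z : ℤ, theta lam phi x = z)
    (hne : S.Nonempty) (C : ℕ) (hC : C = (S.card + 1) ^ 2 * S.card ^ (S.card + 1)) :
    (∃ j : Option (Fin n) → ℤ, (∃ x ∈ S, j x ≠ 0) ∧ (∀ x ∈ S, |j x| ≤ S.card) ∧
      ((∀ x ∈ S, Even (j x)) ∨ ∀ x ∈ S, Odd (j x)) ∧
        Squarefree (∑ x ∈ S, j x * theta lam phi x).den ∧
        (∑ x ∈ S, j x * theta lam phi x).den.totient < C) ∨
    ((∃ (W : Finset (ZMod N)ˣ) (P₀ : ℕ) (g : R), N.totient ≤ C * W.card ∧ g ≠ 0 ∧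
        ∀ p : ℕ, p.Prime → P₀ < p → (∃ v ∈ W, ((p : ℕ) : ZMod N) = ((v : (ZMod N)ˣ) : ZMod N)) →
          ∀ (𝔪 : Ideal R) [𝔪.IsMaximal], (p : R) ∈ 𝔪 → g ∉ 𝔪 → ¬ B.VanishesAt p 𝔪) ∧
      ¬ B.CondH) := by
  subst hC
  by_cases h : ∃ j : Option (Fin n) → ℤ, (∃ x ∈ S, j x ≠ 0) ∧ (∀ x ∈ S, |j x| ≤ S.card) ∧
      ((∀ x ∈ S, Even (j x)) ∨ ∀ x ∈ S, Odd (j x)) ∧
        Squarefree (∑ x ∈ S, j x * theta lam phi x).den ∧
        (∑ x ∈ S, j x * theta lam phi x).den.totient < (S.card + 1) ^ 2 * S.card ^ (S.card + 1)
  · exact Or.inl h
  · right
    refine bad_transfer hB (by have := hne.card_pos; positivity)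
      (sys_units α hα A lam phi hlam hphi N hN hNlam hNphi S hS hne fun j h1 h2 h3 => ?_)
    by_contra hcon
    push Not at hcon
    exact h ⟨j, h1, h2, h3, hcon.1, hcon.2⟩

end Pool.Agent.Results.MP_0707f5_ag.RankTwoOnCurves
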